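import Pool.Agent.H821.ST.Mainp

set_option autoImplicit false

/-!
# The Sato-Tate law for almost all quadratic twists, at all scales

`K` is a number field, `G` the Sato-Tate group over `K` of a family of odd weight as in the problem and
`x_v ∈ G` an element of the class of the prime `v` (any element at the exceptional primes). As the weight
is odd, `z = -1` is in `G`. The quadratic twist of the family by (the character of `K(√D) / K` for) a
squarefree integer `D` is a family of the same kind, with the same group `G`, and the class of a prime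
`v` not dividing `2 D` is the class of `x_v` or of `- x_v = z x_v`, as `D` is a square modulo `v` or
not (`IsTwist`; nothing is assumed at the other primes).

Let `A > 1`, `c < 1/2`, `η > 0` and let `𝓕` be a compact set of continuous class functions on `G`, for
instance all class functions `f` with `|f| ≤ 1` and Lipschitz constant `1` for some metric of `G`.
Without any hypothesis on the family we prove: for all squarefree `D`, apart from a set which contains
only `O(X^(1 - δ))` integers between `-X` and `X`, all `f ∈ 𝓕` and all `N` in the range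
`(log |D|)^A ≤ N ≤ exp (|D|^c)`

1. the average of `f` over the classes of the twist at the primes of norm at most `N` differs by at most
   `η` from the average of the even part of `f` over the classes of the family itself;
2. so if `f` is odd, `f(z g) = - f(g)`, then the average differs by at most `η` from the value
   `∫ f dμ` predicted by the Sato-Tate law;
3. if the Sato-Tate law is known for the family itself (for instance for elliptic curves without complex
   multiplication over totally real fields), then this holds for all `f ∈ 𝓕`, with the further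
   condition `N ≥ N₀` where `N₀` depends on the family but not on `D`: the Sato-Tate law for the twists
   is uniform.

Here `δ` and the implied constant depend on `K`, `G`, `𝓕`, `A`, `c`, `η`, and not on the family.

4. In the range `(log |D|)^A ≤ N ≤ |D|^b`, with any `b > 0`, the error term in 1 and 2 has a power
   saving, for all functions of a sequence simultaneously: there are `θ, δ > 0` and an implied constant,
   which depend only on `K`, `A` and `b`, such that for all sequences `f_0, f_1, ...` of class functions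
   with `|f_j| ≤ 1`, for instance the normalized irreducible characters of `G`, the error is at most
   `(j + 1) N^(-θ)` for all `j` and all `N` in the range, for all squarefree `D` apart from
   `O(X^(1 - δ))`.
-/

namespace Pool.Agent.Results.MP_4c4ce6_nt.AlmostAllTwists

open NumberField IsDedekindDomain Filter Topology MeasureTheory

section

variable {K : Type} [Field K] [NumberField K]

/-- The average of `φ` over the primes of `K` of norm at most `N`. -/
noncomputable def avg (φ : HeightOneSpectrum (𝓞 K) → ℂ) (N : ℕ) : ℂ :=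
  (∑ᶠ v : {v : HeightOneSpectrum (𝓞 K) // Ideal.absNorm v.asIdeal ≤ N}, φ v.1) /
    (Nat.card {v : HeightOneSpectrum (𝓞 K) // Ideal.absNorm v.asIdeal ≤ N} : ℂ)

/-- The classes of the `x v` are equidistributed for `μ`. -/
def Equidistributed {G : Type} [Group G] [TopologicalSpace G] [MeasurableSpace G]
    (x : HeightOneSpectrum (𝓞 K) → G) (μ : Measure G) : Prop :=
  ∀ f : G → ℂ, Continuous f → (∀ g h, f (h * g * h⁻¹) = f g) →
    Tendsto (avg fun v => f (x v)) atTop (𝓝 (∫ g, f g ∂μ))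

/-- The `y v` are in the classes of the twist by `D` of the family with the classes of the `x v`: for all
primes `v` not dividing `2 D`, `y v` is a conjugate of `x v` if `D` is a square modulo `v`, and a
conjugate of `z * x v` if it is not a square. -/
def IsTwist {G : Type} [Group G] (z : G) (D : ℤ) (x y : HeightOneSpectrum (𝓞 K) → G) : Prop :=
  ∀ v : HeightOneSpectrum (𝓞 K), ((2 * D : ℤ) : 𝓞 K) ∉ v.asIdeal → ∃ h : G,
    (IsSquare ((D : ℤ) : 𝓞 K ⧸ v.asIdeal) → y v = h * x v * h⁻¹) ∧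
    (¬ IsSquare ((D : ℤ) : 𝓞 K ⧸ v.asIdeal) → y v = h * (z * x v) * h⁻¹)

end

/-- The range `(log |D|)^A ≤ N ≤ exp (|D|^c)`. -/
def InRange (A c : ℝ) (D : ℤ) (N : ℕ) : Prop :=
  (Real.log |(D : ℝ)|) ^ A ≤ N ∧ Real.log N ≤ |(D : ℝ)| ^ c

section Bridge

set_option linter.unusedSectionVars false

open Pool.Agent.H821.ST Pool.Agent.W540.BE

variable {K : Type} [Field K] [NumberField K]

theorem avg_eq (g : HeightOneSpectrum (𝓞 K) → ℂ) (N : ℕ) : avg g N = mean g N := by
  have hs : ∀ v, v ∈ upto K N ↔ Ideal.absNorm v.asIdeal ≤ N := fun v => mem_upto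
  let e : {v : HeightOneSpectrum (𝓞 K) // Ideal.absNorm v.asIdeal ≤ N} ≃ (upto K N) :=
    Equiv.subtypeEquivRight fun v => (hs v).symm
  have hfin : Finite {v : HeightOneSpectrum (𝓞 K) // Ideal.absNorm v.asIdeal ≤ N} :=
    Finite.of_equiv _ e.symm
  unfold avg mean
  have h1 : (∑ᶠ v : {v : HeightOneSpectrum (𝓞 K) // Ideal.absNorm v.asIdeal ≤ N}, g v.1) =
      ∑ v ∈ upto K N, g v := by
    rw [← Finset.sum_coe_sort, ← finsum_eq_sum_of_fintype, ← finsum_comp_equiv e]
    rfl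
  have h2 : Nat.card {v : HeightOneSpectrum (𝓞 K) // Ideal.absNorm v.asIdeal ≤ N} =
      (upto K N).card := by
    rw [Nat.card_congr e, Nat.card_eq_fintype_card, Fintype.card_coe]
  rw [h1, h2]

theorem avg_sub_le {P Q : HeightOneSpectrum (𝓞 K) → ℂ} {r : ℝ} (hr : 0 ≤ r)
    (h : ∀ v, ‖P v - Q v‖ ≤ r) (N : ℕ) : ‖avg P N - avg Q N‖ ≤ r := by
  rw [avg_eq, avg_eq]
  unfold mean
  rw [← sub_div, ← Finset.sum_sub_distrib, norm_div, Complex.norm_natCast]
  rcases Nat.eq_zero_or_pos (upto K N).card with h0 | h0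
  · rw [h0]
    simpa using hr
  · rw [div_le_iff₀ (by exact_mod_cast h0)]
    refine (norm_sum_le _ _).trans ((Finset.sum_le_sum fun v _ => h v).trans ?_)
    rw [Finset.sum_const, nsmul_eq_mul, mul_comm]

end Bridge

/-- parts 1 to 3 -/
theorem part1 (K : Type) [Field K] [NumberField K]
    (G : Type) [Group G] [TopologicalSpace G] [IsTopologicalGroup G] [CompactSpace G]
    [MeasurableSpace G] [BorelSpace G] (μ : Measure G) [IsProbabilityMeasure μ] [μ.IsHaarMeasure]
    (z : G) (hz : ∀ g, z * g = g * z)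
    (𝓕 : Set C(G, ℂ)) (h𝓕 : IsCompact 𝓕) (hcl : ∀ f ∈ 𝓕, ∀ g h, f (h * g * h⁻¹) = f g)
    (A c η : ℝ) (hA : 1 < A) (hc0 : 0 < c) (hc : c < 1 / 2) (hη : 0 < η) :
    ∃ δ : ℝ, 0 < δ ∧ ∃ C : ℝ, ∀ x : HeightOneSpectrum (𝓞 K) → G, ∃ E : Set ℤ,
      (∀ X : ℕ, 1 ≤ X → (({D : ℤ | D ∈ E ∧ |D| ≤ X}.ncard : ℕ) : ℝ) ≤ C * (X : ℝ) ^ (1 - δ)) ∧
      (∀ D : ℤ, Squarefree D → D ∉ E → ∀ y, IsTwist z D x y → ∀ N, InRange A c D N → ∀ f ∈ 𝓕,
        ‖avg (fun v => f (y v)) N -
          avg (fun v => (f (x v) + f (z * x v)) / 2) N‖ ≤ η ∧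
        ((∀ g, f (z * g) = - f g) → ∫ g, f g ∂μ = 0 ∧ ‖avg (fun v => f (y v)) N‖ ≤ η)) ∧
      (Equidistributed x μ → ∃ N₀ : ℕ,
        ∀ D : ℤ, Squarefree D → D ∉ E → ∀ y, IsTwist z D x y → ∀ N, InRange A c D N → N₀ ≤ N →
          ∀ f ∈ 𝓕, ‖avg (fun v => f (y v)) N - ∫ g, f g ∂μ‖ ≤ η) := by
  classical
  -- a finite net
  obtain ⟨M₀, hM₀⟩ := h𝓕.isBounded.exists_norm_le
  set M : ℝ := max M₀ 1 with hM
  have hM0 : 0 < M := lt_of_lt_of_le one_pos (le_max_right _ _)
  have hbd : ∀ f ∈ 𝓕, ∀ g, ‖f g‖ ≤ M := fun f hf g =>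
    (f.norm_coe_le_norm g).trans ((hM₀ f hf).trans (le_max_left _ _))
  obtain ⟨T, hT𝓕, hTfin, hTcov⟩ := h𝓕.finite_cover_balls (show 0 < η / 8 by positivity)
  obtain ⟨δ, hδ0, hδ1, C, hC, D₀, h⟩ :=
    Pool.Agent.H821.ST.one K A c (η / 4) M hA hc0 hc (by positivity) hM0
  refine ⟨δ, hδ0, hTfin.toFinset.card * C + (2 * D₀ + 1), fun x => ?_⟩
  have hex : ∀ f : C(G, ℂ), ∃ E : Set ℤ, f ∈ 𝓕 →
      ((∀ X : ℕ, (({D : ℤ | D ∈ E ∧ |D| ≤ X}.ncard : ℕ) : ℝ) ≤ C * (X : ℝ) ^ (1 - δ)) ∧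
        ∀ D : ℤ, Squarefree D → D ∉ E → (D₀ : ℤ) ≤ |D| →
          ∀ y, IsTwist z D x y → ∀ N, InRange A c D N →
            ‖avg (fun v => f (y v)) N -
              (avg (fun v => f (x v)) N + avg (fun v => f (z * x v)) N) / 2‖ ≤ η / 4) := by
    intro f
    by_cases hf : f ∈ 𝓕
    · obtain ⟨E, hE1, hE2⟩ := h (fun v => f (x v)) (fun v => f (z * x v)) (fun v => hbd f hf _)
        (fun v => hbd f hf _)
      refine ⟨E, fun _ => ⟨hE1, fun D hD hDE hD0 y hy N hN => ?_⟩⟩
      rw [avg_eq, avg_eq, avg_eq]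
      refine hE2 D hD hDE hD0 (fun v => f (y v)) (fun v => hbd f hf _) ?_ N hN.1 hN.2
      intro v hv
      obtain ⟨k, h1, h2⟩ := hy v hv
      refine ⟨fun hs => ?_, fun hs => ?_⟩
      · show f (y v) = f (x v)
        rw [h1 hs, hcl f hf]
      · show f (y v) = f (z * x v)
        rw [h2 hs, hcl f hf]
    · exact ⟨∅, fun h' => absurd h' hf⟩
  choose Ef hEf using hex
  set E : Set ℤ := {D : ℤ | |D| ≤ D₀} ∪ ⋃ f ∈ hTfin.toFinset, Ef f with hE
  -- the average of the even part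
  have hev : ∀ (f : C(G, ℂ)) (N : ℕ), avg (fun v => (f (x v) + f (z * x v)) / 2) N =
      (avg (fun v => f (x v)) N + avg (fun v => f (z * x v)) N) / 2 := by
    intro f N
    rw [avg_eq, avg_eq, avg_eq]
    unfold Pool.Agent.H821.ST.mean
    rw [← Finset.sum_div, Finset.sum_add_distrib]
    ring
  have hmain : ∀ D : ℤ, Squarefree D → D ∉ E → ∀ y, IsTwist z D x y → ∀ N, InRange A c D N →
      ∀ f ∈ T, ‖avg (fun v => f (y v)) N -
          (avg (fun v => f (x v)) N + avg (fun v => f (z * x v)) N) / 2‖ ≤ η / 4 := by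
    intro D hD hDE y hy N hN f hf
    refine (hEf f (hT𝓕 hf)).2 D hD (fun h' => hDE ?_) ?_ y hy N hN
    · right
      rw [Set.mem_iUnion₂]
      exact ⟨f, hTfin.mem_toFinset.2 hf, h'⟩
    · by_contra hcon
      push Not at hcon
      exact hDE (Or.inl hcon.le)
  have hball : ∀ f ∈ 𝓕, ∃ f' ∈ T, ∀ g, ‖f g - f' g‖ ≤ η / 8 := by
    intro f hf
    have h1 := hTcov hf
    rw [Set.mem_iUnion₂] at h1
    obtain ⟨f', hf', h2⟩ := h1
    refine ⟨f', hf', fun g => ?_⟩
    rw [Metric.mem_ball] at h2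
    have h3 := ContinuousMap.dist_apply_le_dist (f := f) (g := f') g
    rw [dist_eq_norm] at h3
    exact h3.trans h2.le
  have hone : ∀ D : ℤ, Squarefree D → D ∉ E → ∀ y, IsTwist z D x y → ∀ N, InRange A c D N →
      ∀ f ∈ 𝓕, ‖avg (fun v => f (y v)) N - avg (fun v => (f (x v) + f (z * x v)) / 2) N‖ ≤ η := by
    intro D hD hDE y hy N hN f hf
    obtain ⟨f', hf', h1⟩ := hball f hf
    have h2 := hmain D hD hDE y hy N hN f' hf'
    rw [← hev] at h2
    have h3 : ‖avg (fun v => f (y v)) N - avg (fun v => f' (y v)) N‖ ≤ η / 8 :=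
      avg_sub_le (by positivity) (fun v => h1 _) N
    have h4 : ‖avg (fun v => (f' (x v) + f' (z * x v)) / 2) N -
        avg (fun v => (f (x v) + f (z * x v)) / 2) N‖ ≤ η / 8 := by
      refine avg_sub_le (by positivity) (fun v => ?_) N
      have e : (f' (x v) + f' (z * x v)) / 2 - (f (x v) + f (z * x v)) / 2 =
          -((f (x v) - f' (x v)) + (f (z * x v) - f' (z * x v))) / 2 := by ring
      have h2' : ‖(2 : ℂ)‖ = 2 := by simp
      rw [e, norm_div, norm_neg, h2', div_le_iff₀ (by norm_num)]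
      refine (norm_add_le _ _).trans ?_
      linarith [h1 (x v), h1 (z * x v)]
    have e : avg (fun v => f (y v)) N - avg (fun v => (f (x v) + f (z * x v)) / 2) N =
        (avg (fun v => f (y v)) N - avg (fun v => f' (y v)) N) +
        (avg (fun v => f' (y v)) N - avg (fun v => (f' (x v) + f' (z * x v)) / 2) N) +
        (avg (fun v => (f' (x v) + f' (z * x v)) / 2) N -
          avg (fun v => (f (x v) + f (z * x v)) / 2) N) := by ring
    rw [e]
    refine (norm_add₃_le).trans ?_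
    linarith
  have hinv : ∀ f : C(G, ℂ), ∫ g, f (z * g) ∂μ = ∫ g, f g ∂μ := fun f =>
    integral_mul_left_eq_self (fun g => f g) z
  refine ⟨E, fun X hX => ?_, fun D hD hDE y hy N hN f hf => ⟨hone D hD hDE y hy N hN f hf,
    fun hodd => ⟨?_, ?_⟩⟩, fun heq => ?_⟩
  · -- counting
    have hXr : (1 : ℝ) ≤ X := by exact_mod_cast hX
    have hXδ : (1 : ℝ) ≤ (X : ℝ) ^ (1 - δ) := Real.one_le_rpow hXr (by linarith)
    have hIcc : ∀ S : Set ℤ, {D : ℤ | D ∈ S ∧ |D| ≤ X}.Finite := by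
      intro S
      apply (Set.finite_Icc (-(X : ℤ)) X).subset
      rintro D ⟨_, h3⟩
      exact abs_le.1 h3
    have hsub : {D : ℤ | D ∈ E ∧ |D| ≤ X} ⊆ Set.Icc (-(D₀ : ℤ)) D₀ ∪
        ⋃ f ∈ hTfin.toFinset, {D : ℤ | D ∈ Ef f ∧ |D| ≤ X} := by
      rintro D ⟨h1, h2⟩
      rcases h1 with h1 | h1
      · left
        exact abs_le.1 h1
      · right
        rw [Set.mem_iUnion₂] at h1 ⊢
        obtain ⟨f, hf, h3⟩ := h1
        exact ⟨f, hf, h3, h2⟩
    have hU : (⋃ f ∈ hTfin.toFinset, {D : ℤ | D ∈ Ef f ∧ |D| ≤ X}).Finite :=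
      Set.Finite.biUnion (Finset.finite_toSet _) fun f _ => hIcc _
    have h1 := (Set.ncard_le_ncard hsub ((Set.finite_Icc _ _).union hU)).trans
      (Set.ncard_union_le _ _)
    have h2 : ((Set.Icc (-(D₀ : ℤ)) D₀).ncard : ℕ) = 2 * D₀ + 1 := by
      rw [← Finset.coe_Icc, Set.ncard_coe_finset, Int.card_Icc]
      omega
    have h3 : (⋃ f ∈ hTfin.toFinset, {D : ℤ | D ∈ Ef f ∧ |D| ≤ X}).ncard ≤
        ∑ f ∈ hTfin.toFinset, {D : ℤ | D ∈ Ef f ∧ |D| ≤ X}.ncard := by
      have key : ∀ s : Finset C(G, ℂ), (⋃ f ∈ s, {D : ℤ | D ∈ Ef f ∧ |D| ≤ X}).ncard ≤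
          ∑ f ∈ s, {D : ℤ | D ∈ Ef f ∧ |D| ≤ X}.ncard := by
        intro s
        induction s using Finset.induction_on with
        | empty => simp
        | insert a s ha ih =>
          rw [Finset.set_biUnion_insert, Finset.sum_insert ha]
          exact (Set.ncard_union_le _ _).trans (Nat.add_le_add_left ih _)
      exact key _
    have h4 : (({D : ℤ | D ∈ E ∧ |D| ≤ X}.ncard : ℕ) : ℝ) ≤ (2 * D₀ + 1 : ℝ) +
        ∑ f ∈ hTfin.toFinset, (({D : ℤ | D ∈ Ef f ∧ |D| ≤ X}.ncard : ℕ) : ℝ) := by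
      have := h1.trans (Nat.add_le_add h2.le h3)
      exact_mod_cast this
    have h5 : ∑ f ∈ hTfin.toFinset, (({D : ℤ | D ∈ Ef f ∧ |D| ≤ X}.ncard : ℕ) : ℝ) ≤
        hTfin.toFinset.card * (C * (X : ℝ) ^ (1 - δ)) := by
      rw [← nsmul_eq_mul]
      refine Finset.sum_le_card_nsmul _ _ _ fun f hf => ?_
      exact (hEf f (hT𝓕 (hTfin.mem_toFinset.1 hf))).1 X
    have h6 : (2 * D₀ + 1 : ℝ) ≤ (2 * D₀ + 1) * (X : ℝ) ^ (1 - δ) := by
      have : (0 : ℝ) ≤ 2 * D₀ + 1 := by positivity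
      nlinarith
    calc _ ≤ _ := h4.trans (add_le_add h6 h5)
      _ = _ := by ring
  · have h1 := hinv f
    have h2 : ∫ g, f (z * g) ∂μ = - ∫ g, f g ∂μ := by
      rw [← integral_neg]
      exact integral_congr_ae (Eventually.of_forall hodd)
    rw [h2] at h1
    have h3 : (2 : ℂ) * ∫ g, f g ∂μ = 0 := by linear_combination -h1
    simpa using h3
  · have h1 := hone D hD hDE y hy N hN f hf
    have h2 : avg (fun v => (f (x v) + f (z * x v)) / 2) N = 0 := by
      have : (fun v => (f (x v) + f (z * x v)) / 2) = fun _ => (0 : ℂ) := by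
        funext v
        rw [hodd]
        ring
      rw [this, avg_eq]
      unfold Pool.Agent.H821.ST.mean
      simp
    rwa [h2, sub_zero] at h1
  · -- equidistribution
    have hlim : ∀ f ∈ T, ∀ᶠ N in atTop,
        ‖(avg (fun v => f (x v)) N + avg (fun v => f (z * x v)) N) / 2 - ∫ g, f g ∂μ‖ ≤ η / 4 := by
      intro f hf
      have hf𝓕 := hT𝓕 hf
      have h1 := heq (fun g => f g) f.continuous (hcl f hf𝓕)
      have h2 := heq (fun g => f (z * g)) (f.continuous.comp (continuous_const_mul z)) (by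
        intro g k
        have e : z * (k * g * k⁻¹) = k * (z * g) * k⁻¹ := by
          rw [← mul_assoc, ← mul_assoc, hz k, mul_assoc k z g]
        show f (z * (k * g * k⁻¹)) = f (z * g)
        rw [e, hcl f hf𝓕])
      rw [hinv f] at h2
      have h3 := (h1.add h2).div_const 2
      have e : (∫ g, f g ∂μ + ∫ g, f g ∂μ) / 2 = ∫ g, f g ∂μ := by ring
      rw [e] at h3
      have h4 := (Metric.tendsto_nhds.1 h3) (η / 4) (by positivity)
      filter_upwards [h4] with N hN
      rw [dist_eq_norm] at hN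
      exact hN.le
    have hlim2 := (hTfin.toFinset.eventually_all).2 fun f hf =>
      hlim f (hTfin.mem_toFinset.1 hf)
    obtain ⟨N₀, hN₀⟩ := eventually_atTop.1 hlim2
    refine ⟨N₀, fun D hD hDE y hy N hN hNN f hf => ?_⟩
    obtain ⟨f', hf', h1⟩ := hball f hf
    have h2 := hmain D hD hDE y hy N hN f' hf'
    have h3 : ‖avg (fun v => f (y v)) N - avg (fun v => f' (y v)) N‖ ≤ η / 8 :=
      avg_sub_le (by positivity) (fun v => h1 _) N
    have h4 := hN₀ N hNN f' (hTfin.mem_toFinset.2 hf')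
    have h5 : ‖∫ g, f' g ∂μ - ∫ g, f g ∂μ‖ ≤ η / 8 := by
      have hi : ∀ f : C(G, ℂ), Integrable (fun g => f g) μ := by
        intro f
        exact f.continuous.integrable_of_hasCompactSupport
          (HasCompactSupport.of_compactSpace _)
      rw [← integral_sub (hi f') (hi f)]
      have h6 := norm_integral_le_of_norm_le_const (μ := μ) (f := fun g => f' g - f g)
        (C := η / 8) (Eventually.of_forall fun g => by
          rw [← norm_neg, neg_sub]
          exact h1 g)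
      simpa using h6
    have e : avg (fun v => f (y v)) N - ∫ g, f g ∂μ =
        (avg (fun v => f (y v)) N - avg (fun v => f' (y v)) N) +
        (avg (fun v => f' (y v)) N -
          (avg (fun v => f' (x v)) N + avg (fun v => f' (z * x v)) N) / 2) +
        ((avg (fun v => f' (x v)) N + avg (fun v => f' (z * x v)) N) / 2 - ∫ g, f' g ∂μ) +
        (∫ g, f' g ∂μ - ∫ g, f g ∂μ) := by ring
    rw [e]
    refine (norm_add₄_le).trans ?_
    linarith

/-- part 4 -/
theorem part2 (K : Type) [Field K] [NumberField K] (A b : ℝ) (hA : 1 < A) (hb : 0 < b) :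
    ∃ θ : ℝ, 0 < θ ∧ ∃ δ : ℝ, 0 < δ ∧ ∃ C : ℝ,
      ∀ (G : Type) [Group G] (z : G) (x : HeightOneSpectrum (𝓞 K) → G),
      ∀ F : ℕ → G → ℂ, (∀ j g, ‖F j g‖ ≤ 1) → (∀ j g h, F j (h * g * h⁻¹) = F j g) →
        ∃ E : Set ℤ,
      (∀ X : ℕ, 1 ≤ X → (({D : ℤ | D ∈ E ∧ |D| ≤ X}.ncard : ℕ) : ℝ) ≤ C * (X : ℝ) ^ (1 - δ)) ∧
      ∀ D : ℤ, Squarefree D → D ∉ E → ∀ y, IsTwist z D x y →
        ∀ N : ℕ, (Real.log |(D : ℝ)|) ^ A ≤ N → (N : ℝ) ≤ |(D : ℝ)| ^ b → ∀ j : ℕ,
          ‖avg (fun v => F j (y v)) N - avg (fun v => (F j (x v) + F j (z * x v)) / 2) N‖ ≤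
            (j + 1) * (N : ℝ) ^ (-θ) ∧
          ((∀ g, F j (z * g) = - F j g) →
            ‖avg (fun v => F j (y v)) N‖ ≤ (j + 1) * (N : ℝ) ^ (-θ)) := by
  classical
  obtain ⟨θ, hθ, δ, hδ0, hδ1, C, hC, D₀, h⟩ := Pool.Agent.H821.ST.onep K A b hA hb
  refine ⟨θ, hθ, δ, hδ0, C + (2 * D₀ + 1), fun G _ z x F hF hcl => ?_⟩
  obtain ⟨E, hE1, hE2⟩ := h (fun j v => F (j - 1) (x v)) (fun j v => F (j - 1) (z * x v))
    (fun j v => hF _ _) (fun j v => hF _ _)
  have hev : ∀ (f : G → ℂ) (N : ℕ), avg (fun v => (f (x v) + f (z * x v)) / 2) N =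
      (avg (fun v => f (x v)) N + avg (fun v => f (z * x v)) N) / 2 := by
    intro f N
    rw [avg_eq, avg_eq, avg_eq]
    unfold Pool.Agent.H821.ST.mean
    rw [← Finset.sum_div, Finset.sum_add_distrib]
    ring
  have hone : ∀ D : ℤ, Squarefree D → D ∉ E ∪ {D : ℤ | |D| ≤ D₀} → ∀ y, IsTwist z D x y →
      ∀ N : ℕ, (Real.log |(D : ℝ)|) ^ A ≤ N → (N : ℝ) ≤ |(D : ℝ)| ^ b → ∀ j : ℕ,
        ‖avg (fun v => F j (y v)) N - avg (fun v => (F j (x v) + F j (z * x v)) / 2) N‖ ≤
          (j + 1) * (N : ℝ) ^ (-θ) := by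
    intro D hD hDE y hy N hN1 hN2 j
    have h1 : D ∉ E := fun h' => hDE (Or.inl h')
    have h2 : (D₀ : ℤ) ≤ |D| := by
      by_contra hcon
      push Not at hcon
      exact hDE (Or.inr hcon.le)
    have h3 := hE2 D hD h1 h2 N hN1 hN2 (j + 1) (Nat.succ_le_succ (Nat.zero_le _))
      (fun v => F j (y v)) (fun v => hF _ _) (by
        intro v hv
        obtain ⟨k, h1, h2⟩ := hy v hv
        refine ⟨fun hs => ?_, fun hs => ?_⟩
        · show F j (y v) = F (j + 1 - 1) (x v)
          rw [h1 hs, hcl, Nat.add_sub_cancel]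
        · show F j (y v) = F (j + 1 - 1) (z * x v)
          rw [h2 hs, hcl, Nat.add_sub_cancel])
    rw [hev, avg_eq, avg_eq, avg_eq]
    simp only [Nat.add_sub_cancel] at h3
    push_cast at h3
    exact h3
  refine ⟨E ∪ {D : ℤ | |D| ≤ D₀}, fun X hX => ?_, fun D hD hDE y hy N hN1 hN2 j =>
    ⟨hone D hD hDE y hy N hN1 hN2 j, fun hodd => ?_⟩⟩
  · have hXr : (1 : ℝ) ≤ X := by exact_mod_cast hX
    have hXδ : (1 : ℝ) ≤ (X : ℝ) ^ (1 - δ) := Real.one_le_rpow hXr (by linarith)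
    have hIcc : ∀ S : Set ℤ, {D : ℤ | D ∈ S ∧ |D| ≤ X}.Finite := by
      intro S
      apply (Set.finite_Icc (-(X : ℤ)) X).subset
      rintro D ⟨_, h3⟩
      exact abs_le.1 h3
    have hsub : {D : ℤ | D ∈ E ∪ {D : ℤ | |D| ≤ D₀} ∧ |D| ≤ X} ⊆
        {D : ℤ | D ∈ E ∧ |D| ≤ X} ∪ Set.Icc (-(D₀ : ℤ)) D₀ := by
      rintro D ⟨h1, h2⟩
      rcases h1 with h1 | h1
      · exact Or.inl ⟨h1, h2⟩
      · exact Or.inr (abs_le.1 h1)
    have h1 := (Set.ncard_le_ncard hsub ((hIcc _).union (Set.finite_Icc _ _))).trans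
      (Set.ncard_union_le _ _)
    have h2 : ((Set.Icc (-(D₀ : ℤ)) D₀).ncard : ℕ) = 2 * D₀ + 1 := by
      rw [← Finset.coe_Icc, Set.ncard_coe_finset, Int.card_Icc]
      omega
    rw [h2] at h1
    have h3 : (({D : ℤ | D ∈ E ∪ {D : ℤ | |D| ≤ D₀} ∧ |D| ≤ X}.ncard : ℕ) : ℝ) ≤
        (({D : ℤ | D ∈ E ∧ |D| ≤ X}.ncard : ℕ) : ℝ) + (2 * D₀ + 1) := by exact_mod_cast h1
    have h4 := hE1 X
    have h6 : (2 * D₀ + 1 : ℝ) ≤ (2 * D₀ + 1) * (X : ℝ) ^ (1 - δ) := by
      have : (0 : ℝ) ≤ 2 * D₀ + 1 := by positivity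
      nlinarith
    calc _ ≤ _ := h3.trans (add_le_add h4 h6)
      _ = _ := by ring
  · have h1 := hone D hD hDE y hy N hN1 hN2 j
    have h2 : avg (fun v => (F j (x v) + F j (z * x v)) / 2) N = 0 := by
      have : (fun v => (F j (x v) + F j (z * x v)) / 2) = fun _ => (0 : ℂ) := by
        funext v
        rw [hodd]
        ring
      rw [this, avg_eq]
      unfold Pool.Agent.H821.ST.mean
      simp
    rwa [h2, sub_zero] at h1

/-- **The Sato-Tate law for almost all quadratic twists.** Let `K` be a number field, `G` a compact group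
with Haar probability measure `μ`, `z` a central element of `G` (`z = -1` in the application) and
`A > 1`.

I. For all compact sets `𝓕` of continuous class functions on `G`, all `0 < c < 1/2` and `η > 0` there
are `δ > 0` and `C` such that for all `x_v ∈ G` (`v` a prime of `K`) there is a set `E` of integers, at
most `C X^(1 - δ)` of them between `-X` and `X` for all `X ≥ 1`, with the following properties for all
squarefree `D ∉ E`, all `y_v` in the classes of the twist by `D`, all `N` with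
`(log |D|)^A ≤ N ≤ exp (|D|^c)` and all `f ∈ 𝓕`:

1. the average of the `f(y_v)` over the primes of norm at most `N` differs by at most `η` from the average
   of the `(f(x_v) + f(z x_v)) / 2`;
2. if `f` is odd, it differs by at most `η` from `∫ f dμ = 0`;
3. if the classes of the `x_v` are equidistributed, it differs by at most `η` from `∫ f dμ` as soon as
   `N ≥ N₀`, where `N₀` depends on the `x_v`, but not on `D`.

II. For all `b > 0` there are `θ > 0`, `δ > 0` and `C` such that for all `x_v ∈ G` and all sequences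
`f_0, f_1, ...` of class functions on `G` with `|f_j| ≤ 1` there is a set `E` of integers, at most
`C X^(1 - δ)` of them between `-X` and `X` for all `X ≥ 1`, such that for all squarefree `D ∉ E`, all
`y_v` in the classes of the twist by `D`, all `N` with `(log |D|)^A ≤ N ≤ |D|^b` and all `j` the average
of the `f_j(y_v)` over the primes of norm at most `N` differs by at most `(j + 1) N^(-θ)` from the
average of the `(f_j(x_v) + f_j(z x_v)) / 2`, hence from `0` if `f_j` is odd. Here `θ`, `δ` and `C`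
depend on `K`, `A` and `b` only. -/
theorem result (K : Type) [Field K] [NumberField K] (A : ℝ) (hA : 1 < A) :
    (∀ (G : Type) [Group G] [TopologicalSpace G] [IsTopologicalGroup G] [CompactSpace G]
      [MeasurableSpace G] [BorelSpace G] (μ : Measure G) [IsProbabilityMeasure μ] [μ.IsHaarMeasure]
      (z : G), (∀ g, z * g = g * z) →
      ∀ 𝓕 : Set C(G, ℂ), IsCompact 𝓕 → (∀ f ∈ 𝓕, ∀ g h, f (h * g * h⁻¹) = f g) →
      ∀ c η : ℝ, 0 < c → c < 1 / 2 → 0 < η →
      ∃ δ : ℝ, 0 < δ ∧ ∃ C : ℝ, ∀ x : HeightOneSpectrum (𝓞 K) → G, ∃ E : Set ℤ,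
        (∀ X : ℕ, 1 ≤ X → (({D : ℤ | D ∈ E ∧ |D| ≤ X}.ncard : ℕ) : ℝ) ≤ C * (X : ℝ) ^ (1 - δ)) ∧
        (∀ D : ℤ, Squarefree D → D ∉ E → ∀ y, IsTwist z D x y → ∀ N, InRange A c D N → ∀ f ∈ 𝓕,
          ‖avg (fun v => f (y v)) N -
            avg (fun v => (f (x v) + f (z * x v)) / 2) N‖ ≤ η ∧
          ((∀ g, f (z * g) = - f g) → ∫ g, f g ∂μ = 0 ∧ ‖avg (fun v => f (y v)) N‖ ≤ η)) ∧
        (Equidistributed x μ → ∃ N₀ : ℕ,
          ∀ D : ℤ, Squarefree D → D ∉ E → ∀ y, IsTwist z D x y → ∀ N, InRange A c D N → N₀ ≤ N →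
            ∀ f ∈ 𝓕, ‖avg (fun v => f (y v)) N - ∫ g, f g ∂μ‖ ≤ η)) ∧
    (∀ b : ℝ, 0 < b → ∃ θ : ℝ, 0 < θ ∧ ∃ δ : ℝ, 0 < δ ∧ ∃ C : ℝ,
      ∀ (G : Type) [Group G] (z : G) (x : HeightOneSpectrum (𝓞 K) → G),
        ∀ F : ℕ → G → ℂ, (∀ j g, ‖F j g‖ ≤ 1) → (∀ j g h, F j (h * g * h⁻¹) = F j g) →
          ∃ E : Set ℤ,
        (∀ X : ℕ, 1 ≤ X → (({D : ℤ | D ∈ E ∧ |D| ≤ X}.ncard : ℕ) : ℝ) ≤ C * (X : ℝ) ^ (1 - δ)) ∧
        ∀ D : ℤ, Squarefree D → D ∉ E → ∀ y, IsTwist z D x y →
          ∀ N : ℕ, (Real.log |(D : ℝ)|) ^ A ≤ N → (N : ℝ) ≤ |(D : ℝ)| ^ b → ∀ j : ℕ,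
            ‖avg (fun v => F j (y v)) N - avg (fun v => (F j (x v) + F j (z * x v)) / 2) N‖ ≤
              (j + 1) * (N : ℝ) ^ (-θ) ∧
            ((∀ g, F j (z * g) = - F j g) →
              ‖avg (fun v => F j (y v)) N‖ ≤ (j + 1) * (N : ℝ) ^ (-θ))) :=
  ⟨fun G _ _ _ _ _ _ μ _ _ z hz 𝓕 h𝓕 hcl c η hc0 hc hη =>
    part1 K G μ z hz 𝓕 h𝓕 hcl A c η hA hc0 hc hη, fun b hb => part2 K A b hA hb⟩

end Pool.Agent.Results.MP_4c4ce6_nt.AlmostAllTwists
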