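import Pool.Agent.Hp428.ST.Tow

/-!
# Direct sums of families with many conjugates

`V_0, …, V_n` are families as in the problem over a number field `K`, `G i` is the Sato-Tate group of
`V_i` and `x v i ∈ G i` an element of the class of the prime `v` (any elements at the exceptional primes,
chosen in the same way at conjugate primes; this changes the `L`-functions below by finitely many factors
without zeros and poles in `Re s > 0`).  The theorem is about their direct sum, in the case where the group is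
`∏ G i`.

The main example: there are number fields `F_(-1) ⊆ F_0 ⊆ … ⊆ F_n ⊆ K`, with `K` Galois over `F_(-1)`, and
`V_i` is the restriction to `K` of a family over `F_i`.  For `γ` in the Galois group of `K / F_(i-1)` the
classes of `V_j`, `j < i`, at the primes `v` and `γ v` are the same, and the class of `V_i` at `γ v` is the
class of a conjugate of `V_i` at `v`.  Let `Γ i` be a set of representatives of the different conjugates
of `V_i` over `F_(i-1)`.  The assumption is that any two of these conjugates are jointly equidistributed.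
This is known for instance for non-CM elliptic curves over totally real fields with pairwise
nonisogenous conjugates (over an algebraic closure).
-/

set_option autoImplicit false

namespace Pool.Agent.Results.MP_4c4ce6_nt.ConjugateFactors

open NumberField IsDedekindDomain Filter Topology MeasureTheory

section

variable {K : Type} [Field K] [NumberField K]

/-- The average of `φ` over the primes of `K` of norm at most `N`. -/
noncomputable def avg (φ : HeightOneSpectrum (𝓞 K) → ℂ) (N : ℕ) : ℂ :=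
  (∑ᶠ v : {v : HeightOneSpectrum (𝓞 K) // Ideal.absNorm v.asIdeal ≤ N}, φ v.1) /
    (Nat.card {v : HeightOneSpectrum (𝓞 K) // Ideal.absNorm v.asIdeal ≤ N} : ℂ)

/-- The classes of the `y v` are equidistributed for `μ`. -/
def Equidistributed {H : Type} [Group H] [TopologicalSpace H] [MeasurableSpace H]
    (y : HeightOneSpectrum (𝓞 K) → H) (μ : Measure H) : Prop :=
  ∀ f : H → ℂ, Continuous f → (∀ g h, f (h * g * h⁻¹) = f g) →
    Tendsto (avg fun v => f (y v)) atTop (𝓝 (∫ g, f g ∂μ))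

/-- The classes of the `(x v i)_{i ∈ S}` are equidistributed in the product of the `G i`, `i ∈ S`. -/
def Joint {ι : Type} {G : ι → Type} [∀ i, Group (G i)] [∀ i, TopologicalSpace (G i)]
    [∀ i, MeasurableSpace (G i)] (x : HeightOneSpectrum (𝓞 K) → ∀ i, G i)
    (μ : ∀ i, Measure (G i)) (S : Finset ι) : Prop :=
  Equidistributed (fun v (i : S) => x v i) (Measure.pi fun i : S => μ i)

/-- The character of `π`. -/
noncomputable def tr {H : Type} [Group H] {n : ℕ} (π : H →* Matrix.unitaryGroup (Fin n) ℂ)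
    (g : H) : ℂ := (π g : Matrix (Fin n) (Fin n) ℂ).trace

/-- The unitary representation `π` is continuous and irreducible (only the scalars commute with all
matrices `π g`). -/
structure IsIrreducible {H : Type} [Group H] [TopologicalSpace H] {n : ℕ}
    (π : H →* Matrix.unitaryGroup (Fin n) ℂ) : Prop where
  continuous : Continuous π
  schur : ∀ A : Matrix (Fin n) (Fin n) ℂ, (∀ g, (π g : Matrix (Fin n) (Fin n) ℂ) * A = A * π g) →
    ∃ c : ℂ, A = c • (1 : Matrix (Fin n) (Fin n) ℂ)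
  dim : n ≠ 0

variable {n : ℕ} {G : Fin (n + 1) → Type} [∀ i, Group (G i)] [∀ i, TopologicalSpace (G i)]

/-- The hypotheses.  For every `i` there is a finite set `Γ i` of permutations of the primes that preserve
the norms and the classes of the `x v j` for `j < i`, such that the sequences `x (γ v) i` for `γ ∈ Γ i`
are equidistributed, and any two of them are jointly equidistributed. -/
structure HasConjugates [∀ i, MeasurableSpace (G i)] (x : HeightOneSpectrum (𝓞 K) → ∀ i, G i)
    (μ : ∀ i, Measure (G i)) {Γ : Fin (n + 1) → Type}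
    (γ : ∀ i, Γ i → Equiv.Perm (HeightOneSpectrum (𝓞 K))) : Prop where
  norm : ∀ i g v, Ideal.absNorm (γ i g v).asIdeal = Ideal.absNorm v.asIdeal
  fixed : ∀ i j, j < i → ∀ g v, ∃ h, x (γ i g v) j = h * x v j * h⁻¹
  law : ∀ (i) (S : Finset (Γ i)), S.card ≤ 2 →
    Joint (fun v (g : Γ i) => x (γ i g v) i) (fun _ => μ i) S

variable {d : Fin (n + 1) → ℕ}

/-- The tensor product of the matrices `π i (g i)` for `i ∈ S`. -/
noncomputable def tensor (π : ∀ i, G i →* Matrix.unitaryGroup (Fin (d i)) ℂ)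
    (S : Finset (Fin (n + 1)))
    (g : ∀ i, G i) : Matrix (∀ i : S, Fin (d i)) (∀ i : S, Fin (d i)) ℂ :=
  Matrix.of fun a b => ∏ i : S, (π i (g i) : Matrix (Fin (d i)) (Fin (d i)) ℂ) (a i) (b i)

/-- The Euler product `L(s) = ∏_v det(1 - N(v)^{-s} ⊗_{i ∈ S} π i (x v i))⁻¹`. -/
noncomputable def LFun (π : ∀ i, G i →* Matrix.unitaryGroup (Fin (d i)) ℂ)
    (S : Finset (Fin (n + 1)))
    (x : HeightOneSpectrum (𝓞 K) → ∀ i, G i) (s : ℂ) : ℂ :=
  ∏' v : HeightOneSpectrum (𝓞 K),
    (Matrix.det (1 - ((Ideal.absNorm v.asIdeal : ℂ) ^ (-s)) • tensor π S (x v)))⁻¹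

/-- `Λ` is a meromorphic continuation of `L` to a neighbourhood of `1 + iτ`. -/
def IsContinuation (π : ∀ i, G i →* Matrix.unitaryGroup (Fin (d i)) ℂ) (S : Finset (Fin (n + 1)))
    (x : HeightOneSpectrum (𝓞 K) → ∀ i, G i) (τ : ℝ) (Λ : ℂ → ℂ) : Prop :=
  MeromorphicAt Λ (1 + τ * Complex.I) ∧
    ∀ᶠ s in 𝓝 ((1 : ℂ) + τ * Complex.I), (1 : ℝ) < s.re → Λ s = LFun π S x s

/-- The upper limit of the absolute values of the averages of `∏_{i ∈ S} tr (π i) (x v i)` is at most
`κ`, and, for all real `τ`, the upper limit of `|log |L(1 + iτ + ε)|| / log (1/ε)` for `ε → 0+` is at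
most `κ`. -/
def Bounded (π : ∀ i, G i →* Matrix.unitaryGroup (Fin (d i)) ℂ) (S : Finset (Fin (n + 1)))
    (x : HeightOneSpectrum (𝓞 K) → ∀ i, G i) (κ : ℝ) : Prop :=
  (∀ η : ℝ, 0 < η → ∀ᶠ N : ℕ in atTop, ‖avg (fun v => ∏ i ∈ S, tr (π i) (x v i)) N‖ ≤ κ + η) ∧
  ∀ τ η : ℝ, 0 < η → ∀ᶠ ε : ℝ in 𝓝[>] 0, LFun π S x (1 + τ * Complex.I + ε) ≠ 0 ∧
    |Real.log ‖LFun π S x (1 + τ * Complex.I + ε)‖ / Real.log (1 / ε)| ≤ κ + η

end

section Bridge

set_option linter.unusedSectionVars false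

open Pool.Agent.TH553.ST Pool.Agent.TH553.RS Pool.Agent.W540.BE Pool.Agent.Hp428.ST

variable {K : Type} [Field K] [NumberField K]

theorem avg_eq (g : HeightOneSpectrum (𝓞 K) → ℂ) : avg g = mn g := by
  funext N
  have hs : ∀ v, v ∈ upto K N ↔ Ideal.absNorm v.asIdeal ≤ N := fun v => mem_upto
  let e : {v : HeightOneSpectrum (𝓞 K) // Ideal.absNorm v.asIdeal ≤ N} ≃ (upto K N) :=
    Equiv.subtypeEquivRight fun v => (hs v).symm
  have hfin : Finite {v : HeightOneSpectrum (𝓞 K) // Ideal.absNorm v.asIdeal ≤ N} :=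
    Finite.of_equiv _ e.symm
  unfold avg mn
  have h1 : (∑ᶠ v : {v : HeightOneSpectrum (𝓞 K) // Ideal.absNorm v.asIdeal ≤ N}, g v.1) =
      ∑ v ∈ upto K N, g v := by
    rw [← Finset.sum_coe_sort, ← finsum_eq_sum_of_fintype, ← finsum_comp_equiv e]
    rfl
  have h2 : Nat.card {v : HeightOneSpectrum (𝓞 K) // Ideal.absNorm v.asIdeal ≤ N} =
      (upto K N).card := by
    rw [Nat.card_congr e, Nat.card_eq_fintype_card, Fintype.card_coe]
  rw [h1, h2, Complex.real_smul, div_eq_inv_mul]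
  push_cast
  rfl

theorem eq_iff {H : Type} [Group H] [TopologicalSpace H] [MeasurableSpace H]
    {y : HeightOneSpectrum (𝓞 K) → H} {μ : Measure H} : Equidistributed y μ ↔ EqD y μ := by
  unfold Equidistributed EqD
  simp only [avg_eq]

theorem joint_iff {ι : Type} {G : ι → Type} [∀ i, Group (G i)] [∀ i, TopologicalSpace (G i)]
    [∀ i, MeasurableSpace (G i)] {x : HeightOneSpectrum (𝓞 K) → ∀ i, G i}
    {μ : ∀ i, Measure (G i)} {S : Finset ι} : Joint x μ S ↔ Jt x μ S := eq_iff

variable {n : ℕ} {G : Fin (n + 1) → Type} [∀ i, Group (G i)]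
  [∀ i, TopologicalSpace (G i)] [∀ i, IsTopologicalGroup (G i)] [∀ i, CompactSpace (G i)]
  [∀ i, T2Space (G i)] [∀ i, SecondCountableTopology (G i)]
  [∀ i, MeasurableSpace (G i)] [∀ i, BorelSpace (G i)]
  {x : HeightOneSpectrum (𝓞 K) → ∀ i, G i} {μ : ∀ i, Measure (G i)}
  [∀ i, IsProbabilityMeasure (μ i)] [∀ i, (μ i).IsHaarMeasure]
  {Γ : Fin (n + 1) → Type} [∀ i, Fintype (Γ i)] [∀ i, Nonempty (Γ i)]
  {γ : ∀ i, Γ i → Equiv.Perm (HeightOneSpectrum (𝓞 K))}
  {d : Fin (n + 1) → ℕ} {π : ∀ i, G i →* Matrix.unitaryGroup (Fin (d i)) ℂ}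

theorem tow_of (h : HasConjugates x μ γ) : Tow x μ γ where
  norm i g v := h.norm i g v
  fixed := h.fixed
  law i S hS := (joint_iff.1 (h.law i S hS)).tlc

theorem bounded_of (h : HasConjugates x μ γ) (hπ : ∀ i, IsIrreducible (π i)) {i : Fin (n + 1)}
    (hn : ∃ g, π i g ≠ 1) {κ : ℝ} (hκ : 0 ≤ κ)
    (h1 : ∀ U : Ultrafilter ℕ, (U : Filter ℕ) ≤ atTop →
      (MN U fun v => ‖uo π x (Finset.Iio i) v‖ ^ 2) ≤ κ ^ 2)
    (h2 : ∀ U : Ultrafilter ℝ, (U : Filter ℝ) ≤ 𝓝[>] 0 →
      (M (nm K) U fun v => ‖uo π x (Finset.Iio i) v‖ ^ 2) ≤ κ ^ 2) :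
    Bounded π (Finset.Iic i) x (κ / Real.sqrt (Fintype.card (Γ i))) ∧
    (κ / Real.sqrt (Fintype.card (Γ i)) < 1 → ∀ (τ : ℝ) (Λ : ℂ → ℂ),
      IsContinuation π (Finset.Iic i) x τ Λ → meromorphicOrderAt Λ (1 + τ * Complex.I) = 0) := by
  have hc := fun j => (hπ j).continuous
  have hs : ∀ j, Schur (π j) := fun j => (hπ j).schur
  have hT : ∀ j ∈ Finset.Iio i, j < i ∨ ∀ g, π j g = 1 := fun j hj =>
    Or.inl (Finset.mem_Iio.1 hj)
  have hM : ∀ (τ : ℝ) (U : Ultrafilter ℝ), (U : Filter ℝ) ≤ 𝓝[>] 0 →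
      |M (nm K) U fun v => ((∏ j ∈ Finset.Iic i, chi (π j) (x v j)) *
        ((nm K v : ℕ) : ℂ) ^ (-(τ * Complex.I : ℂ))).re| ≤
        κ / Real.sqrt (Fintype.card (Γ i)) := by
    intro τ U hU
    have h3 := (tow_of h).size hc hs hn hT hκ hU (h2 U hU) τ
    simp only [uo_Iic] at h3
    exact h3
  refine ⟨⟨fun η hη => ?_, fun τ η hη => ?_⟩, fun hlt τ Λ hΛ => ?_⟩
  · rw [avg_eq]
    have h3 := (tow_of h).avg hc hs hn hT hκ h1 hη
    simp only [uo_Iic] at h3
    exact h3
  · filter_upwards [(size_T (π := π) (Finset.Iic i) x τ).1,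
      edge_le2 hc τ (hM τ) hη] with ε h3 h4
    exact ⟨h3, h4⟩
  · exact order_zero2 hc hlt (hM τ) hΛ.1 hΛ.2

end Bridge

/-- **Direct sums of families with many conjugates.**

I. Let `K` be a number field, `G i` (`i = 0, …, n`) compact groups (Hausdorff, second countable) with Haar
probability measures `μ i` and `x v i ∈ G i` for the primes `v` of `K`, and suppose that `x v i` has
`r i = |Γ i|` conjugates as in `HasConjugates`.  Let `π j` be irreducible representations of the `G j`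
of dimensions `d j`, with `π i` not trivial, and let `L` be the `L`-function of `⊗_{j ≤ i} π j`.  Then the
absolute values of the averages of `∏_{j ≤ i} tr (π j) (x v j)` and `|log |L(1 + iτ + ε)|| / log (1/ε)` have
upper limits at most `∏_{j < i} d j / √(r i)`, and even at most `1 / √(r i)` if the `x v j` with
`j < i` are jointly equidistributed.  If `r i > ∏_{j < i} (d j)²` (or if the `x v j` with `j < i` are
jointly equidistributed and `r i > 1`), then `L` has neither a zero nor a pole at any point `1 + iτ` to a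
neighbourhood of which it has a meromorphic continuation.

II. Let `f` be a continuous class function on `∏ G i` and `δ > 0`.  There is a number `R`, depending only on the
`G i`, `f` and `δ`, such that for all `K`, `x` and `Γ` as in I, for which for every `i` we have `r i ≥ R` or
the `x v j` with `j ≤ i` are jointly equidistributed, the averages of `f (x v)` over the primes `v` of norm at
most `N` differ by at most `δ` from `∫ f` for all large `N`. -/
theorem result :
    (∀ (K : Type) [Field K] [NumberField K]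
      (n : ℕ) (G : Fin (n + 1) → Type) [∀ i, Group (G i)] [∀ i, TopologicalSpace (G i)]
      [∀ i, IsTopologicalGroup (G i)] [∀ i, CompactSpace (G i)] [∀ i, T2Space (G i)]
      [∀ i, SecondCountableTopology (G i)] [∀ i, MeasurableSpace (G i)] [∀ i, BorelSpace (G i)]
      (μ : ∀ i, Measure (G i)) [∀ i, IsProbabilityMeasure (μ i)] [∀ i, (μ i).IsHaarMeasure]
      (x : HeightOneSpectrum (𝓞 K) → ∀ i, G i)
      (Γ : Fin (n + 1) → Type) [∀ i, Fintype (Γ i)] [∀ i, Nonempty (Γ i)]
      (γ : ∀ i, Γ i → Equiv.Perm (HeightOneSpectrum (𝓞 K))), HasConjugates x μ γ →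
      ∀ (d : Fin (n + 1) → ℕ) (π : ∀ i, G i →* Matrix.unitaryGroup (Fin (d i)) ℂ),
        (∀ i, IsIrreducible (π i)) → ∀ i, (∃ g, π i g ≠ 1) →
        Bounded π (Finset.Iic i) x
          ((∏ j ∈ Finset.Iio i, (d j : ℝ)) / Real.sqrt (Fintype.card (Γ i))) ∧
        (Joint x μ (Finset.Iio i) →
          Bounded π (Finset.Iic i) x (1 / Real.sqrt (Fintype.card (Γ i)))) ∧
        (∏ j ∈ Finset.Iio i, d j ^ 2 < Fintype.card (Γ i) ∨
            (Joint x μ (Finset.Iio i) ∧ 1 < Fintype.card (Γ i)) →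
          ∀ (τ : ℝ) (Λ : ℂ → ℂ), IsContinuation π (Finset.Iic i) x τ Λ →
            meromorphicOrderAt Λ (1 + τ * Complex.I) = 0)) ∧
    (∀ (n : ℕ) (G : Fin (n + 1) → Type) [∀ i, Group (G i)] [∀ i, TopologicalSpace (G i)]
      [∀ i, IsTopologicalGroup (G i)] [∀ i, CompactSpace (G i)] [∀ i, T2Space (G i)]
      [∀ i, SecondCountableTopology (G i)] [∀ i, MeasurableSpace (G i)] [∀ i, BorelSpace (G i)]
      (μ : ∀ i, Measure (G i)) [∀ i, IsProbabilityMeasure (μ i)] [∀ i, (μ i).IsHaarMeasure]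
      (f : (∀ i, G i) → ℂ), Continuous f → (∀ g h, f (h * g * h⁻¹) = f g) →
      ∀ δ : ℝ, 0 < δ → ∃ R : ℕ, ∀ (K : Type) [Field K] [NumberField K]
        (x : HeightOneSpectrum (𝓞 K) → ∀ i, G i)
        (Γ : Fin (n + 1) → Type) [∀ i, Fintype (Γ i)] [∀ i, Nonempty (Γ i)]
        (γ : ∀ i, Γ i → Equiv.Perm (HeightOneSpectrum (𝓞 K))), HasConjugates x μ γ →
        (∀ i, R ≤ Fintype.card (Γ i) ∨ Joint x μ (Finset.Iic i)) →
        ∀ᶠ N : ℕ in atTop, ‖avg (fun v => f (x v)) N - ∫ g, f g ∂(Measure.pi μ)‖ ≤ δ) := by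
  refine ⟨?_, ?_⟩
  · intro K _ _ n G _ _ _ _ _ _ _ _ μ _ _ x Γ _ _ γ h d π hπ i hn
    have hr : (0 : ℝ) < Fintype.card (Γ i) := by exact_mod_cast Fintype.card_pos
    have hs := Real.sqrt_pos.2 hr
    have h1 := bounded_of h hπ hn (Pool.Agent.Hp428.ST.prod_nonneg' (Finset.Iio i))
      (fun U hU => Pool.Agent.Hp428.ST.MN_uo _ hU) (fun U hU => Pool.Agent.Hp428.ST.M_uo _ hU)
    have h2 : Joint x μ (Finset.Iio i) → _ := fun hJ => by
      have hTL := (joint_iff.1 hJ).tlc.tl
      exact bounded_of h hπ hn (κ := 1) zero_le_one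
        (fun U hU => le_of_eq (by
          rw [Pool.Agent.Hp428.ST.PLw_uo (fun j => (hπ j).continuous) (fun j => (hπ j).schur)
            (fun j => (hπ j).dim) (hTL.pl_MN hU), one_pow]))
        (fun U hU => le_of_eq (by
          rw [Pool.Agent.Hp428.ST.PLw_uo (fun j => (hπ j).continuous) (fun j => (hπ j).schur)
            (fun j => (hπ j).dim) (hTL.pl_M hU), one_pow]))
    refine ⟨h1.1, fun hJ => (h2 hJ).1, fun hcase => ?_⟩
    rcases hcase with hlt | ⟨hJ, hlt⟩
    · refine h1.2 ?_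
      rw [div_lt_one hs]
      refine Real.lt_sqrt_of_sq_lt ?_
      rw [← Finset.prod_pow]
      exact_mod_cast hlt
    · refine (h2 hJ).2 ?_
      rw [div_lt_one hs]
      refine Real.lt_sqrt_of_sq_lt ?_
      rw [one_pow]
      exact_mod_cast hlt
  · intro n G _ _ _ _ _ _ _ _ μ _ _ f hf hcl δ hδ
    obtain ⟨R, hR⟩ := Pool.Agent.Hp428.ST.tow_all (μ := μ) hf hcl hδ
    refine ⟨R, fun K _ _ x Γ _ _ γ h hJ => ?_⟩
    rw [avg_eq]
    exact hR K x Γ γ (tow_of h) fun i => (hJ i).imp id fun h1 => (joint_iff.1 h1).tlc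

end Pool.Agent.Results.MP_4c4ce6_nt.ConjugateFactors
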