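import Pool.Agent.Helper644_ST.BesLaw

/-!
# The Sato-Tate law over `K` and over linearly disjoint extensions of `K`

`K` is a number field, `G = ST_K` and `x_v` the classes of the problem; `disc_F` is the discrepancy of a
class function over the finite extension `F` of `K`, for the Sato-Tate group over `F`.  Let `F_i` be
extensions of `K` which are linearly disjoint in pairs, for instance any quadratic extensions, or
any fields with doubly transitive Galois groups and different normal closures (all extensions of degree
`n` with Galois group `S_n`, up to conjugation), and let `w_i = 1 / (r_i - 1)`, where `F_i ⊗ F_i` is the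
product of `r_i` fields.

* Inequality of Bessel: `∑ w_i |disc_{F_i} - disc_K| ^ 2 ≤ 1 + η` for all large `N`, for any finite
  number of the `F_i`.  If the law holds over `K`, then `∑ w_i |disc_{F_i}| ^ 2 ≤ 1 / 4 + η`.  So for
  every large `N` there are at most `C / (4 ε ^ 2)` fields among them with `|disc_{F_i}| > ε`, if
  all `1 / w_i` are less than `C`.
* If `∑ w_i = ∞`, for instance if the degrees of the `F_i` are bounded, then the law over `K` is
  equivalent to the law on average over the `F_i`.  In particular the law over all the `F_i`, for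
  instance over infinitely many quadratic extensions of `K`, implies the law over `K`.

No automorphy and no continuation of `L`-functions is used.
-/

set_option autoImplicit false

namespace Pool.Agent.Results.MP_4c4ce6_nt.LawOnAverage

open NumberField Filter MeasureTheory Pool.Agent.Helper644_ST

theorem result (K : Type) [Field K] [NumberField K] (G : Type) [Group G] [TopologicalSpace G]
    [IsTopologicalGroup G] [CompactSpace G] [MeasurableSpace G] [BorelSpace G] (μ : Measure G)
    [IsProbabilityMeasure μ] [μ.IsHaarMeasure] (D : Datum K G) :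
    (∀ (ι : Type) [Fintype ι] (F : ι → Type) [∀ i, Field (F i)] [∀ i, NumberField (F i)]
      [∀ i, Algebra K (F i)], Independent K F → ∀ f : G → ℝ, IsTest f → ∀ η : ℝ, 0 < η →
      (∀ᶠ N in atTop,
        ∑ i, weight K (F i) * (D.disc (F i) μ f N - D.disc K μ f N) ^ 2 ≤ 1 + η) ∧
      ((∀ i, D.groupOver (F i) = ⊤) → ∀ᶠ N in atTop,
        ∑ i, weight K (F i) * (D.disc (F i) μ f N - D.disc K μ f N) ^ 2 ≤ 1 / 4 + η) ∧
      (D.SatoTate μ → ∀ᶠ N in atTop,
        ∑ i, weight K (F i) * D.disc (F i) μ f N ^ 2 ≤ 1 / 4 + η)) ∧
    (∀ (F : ℕ → Type) [∀ i, Field (F i)] [∀ i, NumberField (F i)] [∀ i, Algebra K (F i)],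
      Independent K F → ¬ Summable (fun i => weight K (F i)) →
      (D.SatoTate μ ↔ ∀ f, IsTest f → ∀ η : ℝ, 0 < η → ∀ᶠ m in atTop, ∀ᶠ N in atTop,
        ∑ i ∈ Finset.range m, weight K (F i) * |D.disc (F i) μ f N| ≤
          η * ∑ i ∈ Finset.range m, weight K (F i)) ∧
      ((∀ i, D.SatoTateOver (F i) μ) → D.SatoTate μ)) ∧
    (∀ (ι : Type) (F : ι → Type) [∀ i, Field (F i)] [∀ i, NumberField (F i)]
      [∀ i, Algebra K (F i)], (∀ i, numFields K (F i) (F i) = 2) →
      (∀ i j, i ≠ j → (perm K (F i)).ker ≠ (perm K (F j)).ker) → Independent K F) ∧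
    (∀ (F : Type) [Field F] [NumberField F] [Algebra K F],
      numFields K F F ≤ Module.finrank K F) :=
  ⟨fun _ _ F _ _ _ h _ hf η hη => ⟨bessel_one μ D F h hf η hη, bessel_top μ D F h hf η hη,
      bessel_law μ D F h hf η hη⟩,
    fun F _ _ _ h hw => ⟨avg_iff μ D F h hw, descent μ D F h hw⟩,
    fun _ F _ _ _ h hk => indep_of_two F h hk, fun F _ _ _ => numFields_le F⟩

end Pool.Agent.Results.MP_4c4ce6_nt.LawOnAverage
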