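import Pool.Agent.Hp428.ST.Sgn

/-!
# Sign patterns of the Frobenius traces of three elliptic curves

Let `E_0, E_1, E_2` be elliptic curves over a number field `K` and `θ i v ∈ [0, π]` the Frobenius angle of
`E_i` at the prime `v`, `a_v(E_i) = 2 √(N v) cos (θ i v)` (any angle at the finitely many bad primes).  For
curves without complex multiplication, pairwise not isogenous over an algebraic closure, the Sato-Tate
conjecture for `A = E_0 × E_1 × E_2` says that the triples of angles are equidistributed for the product of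
three Sato-Tate measures; this is open.  Known for `K = ℚ`: any two of the angles are jointly equidistributed
(Harris; Barnet-Lamb, Geraghty, Harris, Taylor), and the averages of
`cos (θ 0 v) cos (θ 1 v) (cos (θ 2 v))^c` tend to `0` for every `c`, because the Rankin-Selberg L-functions of
`π_0 ⊠ π_1` on `GL_4` (Ramakrishnan) and `Sym^k π_2` on `GL_(k+1)` (Newton, Thorne) have no zeros and no poles
on `Re s = 1` (Jacquet, Piatetski-Shapiro, Shalika; Shahidi).  The same holds jointly with the class `y p` of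
`p` modulo `q` (twists by Dirichlet characters).  From this information the theorem produces all the eight
patterns of signs.
-/

set_option autoImplicit false

namespace Pool.Agent.Results.MP_4c4ce6_nt.SignPatterns

open NumberField IsDedekindDomain Filter Topology MeasureTheory

section

variable {K : Type} [Field K] [NumberField K]

/-- The average of `φ` over the primes of `K` of norm at most `N`. -/
noncomputable def avg (φ : HeightOneSpectrum (𝓞 K) → ℝ) (N : ℕ) : ℝ :=
  (∑ᶠ v : {v : HeightOneSpectrum (𝓞 K) // Ideal.absNorm v.asIdeal ≤ N}, φ v.1) /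
    (Nat.card {v : HeightOneSpectrum (𝓞 K) // Ideal.absNorm v.asIdeal ≤ N} : ℝ)

/-- The proportion of the primes with the property `P` among the primes of norm at most `N`. -/
noncomputable def proportion (P : HeightOneSpectrum (𝓞 K) → Prop) (N : ℕ) : ℝ :=
  (Nat.card {v : HeightOneSpectrum (𝓞 K) // Ideal.absNorm v.asIdeal ≤ N ∧ P v} : ℝ) /
    (Nat.card {v : HeightOneSpectrum (𝓞 K) // Ideal.absNorm v.asIdeal ≤ N} : ℝ)

/-- The Sato-Tate measure `(2/π) sin² θ dθ` on `[0, π]`. -/
noncomputable def satoTate : Measure ℝ :=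
  (volume.restrict (Set.Icc 0 Real.pi)).withDensity fun t => ENNReal.ofReal (2 / Real.pi * Real.sin t ^ 2)

/-- The `z v` are equidistributed for `μ`. -/
def Equidistributed {X : Type} [TopologicalSpace X] [MeasurableSpace X]
    (z : HeightOneSpectrum (𝓞 K) → X) (μ : Measure X) : Prop :=
  ∀ f : X → ℝ, Continuous f → (∃ C, ∀ x, |f x| ≤ C) →
    Tendsto (avg fun v => f (z v)) atTop (𝓝 (∫ x, f x ∂μ))

/-- The information on the angles `θ i v ∈ [0, π]`, `i = 0, 1, 2`, and the points `y v` of a space `Y`: any two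
of the sequences of angles are equidistributed jointly with `y`, and the averages of
`cos (θ 0 v) cos (θ 1 v) (cos (θ 2 v))^c g(y v)` tend to `0`. -/
structure Known {Y : Type} [TopologicalSpace Y] [MeasurableSpace Y]
    (θ : Fin 3 → HeightOneSpectrum (𝓞 K) → ℝ) (y : HeightOneSpectrum (𝓞 K) → Y)
    (lam : Measure Y) : Prop where
  mem : ∀ i v, θ i v ∈ Set.Icc 0 Real.pi
  pairs : ∀ i j, i ≠ j →
    Equidistributed (fun v => (θ i v, θ j v, y v)) (satoTate.prod (satoTate.prod lam))
  tensor : ∀ (c : ℕ) (g : Y → ℝ), Continuous g → (∃ C, ∀ x, |g x| ≤ C) →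
    Tendsto (avg fun v => Real.cos (θ 0 v) * Real.cos (θ 1 v) * Real.cos (θ 2 v) ^ c * g (y v)) atTop (𝓝 0)

end

section Bridge

open Pool.Agent.TH553.ST Pool.Agent.W540.BE Pool.Agent.Hp428.ST

variable {K : Type} [Field K] [NumberField K]

instance : IsProbabilityMeasure satoTate := inferInstanceAs (IsProbabilityMeasure st)

theorem avg_eq (g : HeightOneSpectrum (𝓞 K) → ℝ) : avg g = mn g := by
  funext N
  have hs : ∀ v, v ∈ upto K N ↔ Ideal.absNorm v.asIdeal ≤ N := fun v => mem_upto
  let e : {v : HeightOneSpectrum (𝓞 K) // Ideal.absNorm v.asIdeal ≤ N} ≃ (upto K N) :=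
    Equiv.subtypeEquivRight fun v => (hs v).symm
  have hfin : Finite {v : HeightOneSpectrum (𝓞 K) // Ideal.absNorm v.asIdeal ≤ N} :=
    Finite.of_equiv _ e.symm
  unfold avg mn
  have h1 : (∑ᶠ v : {v : HeightOneSpectrum (𝓞 K) // Ideal.absNorm v.asIdeal ≤ N}, g v.1) =
      ∑ v ∈ upto K N, g v := by
    rw [← Finset.sum_coe_sort, ← finsum_eq_sum_of_fintype, ← finsum_comp_equiv e]
    rfl
  have h2 : Nat.card {v : HeightOneSpectrum (𝓞 K) // Ideal.absNorm v.asIdeal ≤ N} =
      (upto K N).card := by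
    rw [Nat.card_congr e, Nat.card_eq_fintype_card, Fintype.card_coe]
  rw [h1, h2, smul_eq_mul, div_eq_inv_mul]

open Classical in
theorem proportion_eq (P : HeightOneSpectrum (𝓞 K) → Prop) (N : ℕ) :
    proportion P N = mn (fun v => if P v then (1:ℝ) else 0) N := by
  have h1 : Nat.card {v : HeightOneSpectrum (𝓞 K) // Ideal.absNorm v.asIdeal ≤ N} =
      (upto K N).card := by
    have hs : ∀ v, v ∈ upto K N ↔ Ideal.absNorm v.asIdeal ≤ N := fun v => mem_upto
    rw [Nat.card_congr (Equiv.subtypeEquivRight fun v => (hs v).symm),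
      Nat.card_eq_fintype_card, Fintype.card_coe]
  have h2 : Nat.card {v : HeightOneSpectrum (𝓞 K) // Ideal.absNorm v.asIdeal ≤ N ∧ P v} =
      ((upto K N).filter P).card := by
    have hs : ∀ v, v ∈ (upto K N).filter P ↔ Ideal.absNorm v.asIdeal ≤ N ∧ P v := fun v => by
      rw [Finset.mem_filter, mem_upto]
      rfl
    rw [Nat.card_congr (Equiv.subtypeEquivRight fun v => (hs v).symm),
      Nat.card_eq_fintype_card, Fintype.card_coe]
  unfold proportion mn
  rw [h1, h2, smul_eq_mul, Finset.sum_boole, div_eq_inv_mul]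

variable {Y : Type} [TopologicalSpace Y] [MeasurableSpace Y]
  {θ : Fin 3 → HeightOneSpectrum (𝓞 K) → ℝ} {y : HeightOneSpectrum (𝓞 K) → Y}
  {lam : Measure Y}

theorem pair_tt [IsProbabilityMeasure lam] (h : Known θ y lam) {i j : Fin 3} (hij : i ≠ j)
    {φ χ : ℝ → ℝ} {g : Y → ℝ} (hφ : Continuous φ) (bφ : ∃ C, ∀ x, |φ x| ≤ C) (hχ : Continuous χ)
    (bχ : ∃ C, ∀ x, |χ x| ≤ C) (hg : Continuous g) (bg : ∃ C, ∀ x, |g x| ≤ C) :
    TT (fun v => φ (θ i v) * χ (θ j v) * g (y v))
      ((∫ t, φ t ∂st) * (∫ t, χ t ∂st) * ∫ x, g x ∂lam) := by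
  obtain ⟨C1, hC1⟩ := bφ
  obtain ⟨C2, hC2⟩ := bχ
  obtain ⟨C3, hC3⟩ := bg
  have h1 := h.pairs i j hij (fun z => φ z.1 * (χ z.2.1 * g z.2.2)) (by fun_prop)
    ⟨C1 * (C2 * C3), fun x => by
      rw [abs_mul, abs_mul]
      have n1 := (abs_nonneg _).trans (hC1 x.1)
      have n2 := (abs_nonneg _).trans (hC2 x.2.1)
      have i1 := mul_le_mul (hC2 x.2.1) (hC3 x.2.2) (abs_nonneg _) n2
      exact mul_le_mul (hC1 _) i1 (by positivity) n1⟩
  rw [avg_eq] at h1
  have e : ∫ z, φ z.1 * (χ z.2.1 * g z.2.2) ∂(satoTate.prod (satoTate.prod lam)) =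
      (∫ t, φ t ∂st) * (∫ t, χ t ∂st) * ∫ x, g x ∂lam := by
    rw [integral_prod_mul (μ := satoTate) (ν := satoTate.prod lam) φ (fun z => χ z.1 * g z.2),
      integral_prod_mul (μ := satoTate) (ν := lam) χ g, ← mul_assoc]
    rfl
  exact TT.congr (L := ∫ z, φ z.1 * (χ z.2.1 * g z.2.2) ∂(satoTate.prod (satoTate.prod lam)))
    h1 (fun v => by ring) e

theorem tens_tt (h : Known θ y lam) {g : Y → ℝ} (hg : Continuous g) (bg : ∃ C, ∀ x, |g x| ≤ C)
    {F : ℝ → ℝ} (hF : Continuous F) :
    TT (fun v => Real.cos (θ 0 v) * Real.cos (θ 1 v) * F (Real.cos (θ 2 v)) * g (y v)) 0 := by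
  obtain ⟨C, hC⟩ := id bg
  refine tens_cont (fun v => Real.abs_cos_le_one _) (fun v => Real.abs_cos_le_one _)
    (fun v => Real.abs_cos_le_one _) (fun v => hC _) (fun n => ?_) hF
  have h1 := h.tensor n g hg bg
  rw [avg_eq] at h1
  exact h1

end Bridge

/-- **Sign patterns.**  Let `K` be a number field, `θ 0, θ 1, θ 2` angles and `y` points of the separable
metrizable space `Y` as in `Known` for the probability measure `lam`.

I. Let `e i = ±1` and let `J` be an open subset of `Y` with `lam J ≠ 0`.  Among the primes `v` of norm at most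
`N`, for all large `N`, at least the proportion `lam J / 25` satisfies `e i cos (θ i v) > 0` for `i = 0, 1, 2`
and `y v ∈ J`.

II. Let in addition `I` be an open set of real numbers with `satoTate I ≠ 0`.  Among the primes `v` of norm at
most `N`, for all large `N`, at least the proportion `satoTate I lam J / 37` satisfies
`e 0 cos (θ 0 v) > 0`, `e 1 cos (θ 1 v) > 0`, `θ 2 v ∈ I` and `y v ∈ J`. -/
theorem result (K : Type) [Field K] [NumberField K] (Y : Type) [TopologicalSpace Y]
    [TopologicalSpace.MetrizableSpace Y] [SecondCountableTopology Y] [MeasurableSpace Y] [BorelSpace Y]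
    (lam : Measure Y) [IsProbabilityMeasure lam] (θ : Fin 3 → HeightOneSpectrum (𝓞 K) → ℝ)
    (y : HeightOneSpectrum (𝓞 K) → Y) (h : Known θ y lam)
    (e : Fin 3 → ℝ) (he : ∀ i, e i = 1 ∨ e i = -1) (J : Set Y) (hJ : IsOpen J) (hJ0 : lam J ≠ 0) :
    (∀ᶠ N : ℕ in atTop, (lam J).toReal / 25 ≤
      proportion (fun v => (∀ i, 0 < e i * Real.cos (θ i v)) ∧ y v ∈ J) N) ∧
    ∀ I : Set ℝ, IsOpen I → satoTate I ≠ 0 → ∀ᶠ N : ℕ in atTop,
      (satoTate I).toReal * (lam J).toReal / 37 ≤
        proportion (fun v => 0 < e 0 * Real.cos (θ 0 v) ∧ 0 < e 1 * Real.cos (θ 1 v) ∧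
          θ 2 v ∈ I ∧ y v ∈ J) N := by
  classical
  have hJp : 0 < (lam J).toReal := ENNReal.toReal_pos hJ0 (measure_ne_top _ _)
  have hpi : Real.pi < 3.15 := Real.pi_lt_d2
  have hpi0 := Real.pi_pos
  have hm : (8 / (3 * Real.pi)) ^ 2 > 0.7166 := by
    rw [div_pow, gt_iff_lt, lt_div_iff₀ (by positivity)]
    nlinarith
  refine ⟨?_, fun I hI hI0 => ?_⟩
  · have hm' : 3 / 20 * ((8 / (3 * Real.pi)) ^ 2 / 2 - 729 / 8000) > (0.04007 : ℝ) := by
      linarith
    obtain ⟨g, hg, g0, g1, gJ, hgi⟩ := Pool.Agent.Hp428.ST.open_approx lam hJ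
      (c := 999 / 1000 * (lam J).toReal) (by
        rw [Measure.real]
        linarith)
    have bg : ∃ C, ∀ x, |g x| ≤ C := ⟨1, fun x => by
      rw [abs_of_nonneg (g0 x)]
      exact g1 x⟩
    have hG : 0 < ∫ x, g x ∂lam := lt_trans (by positivity) hgi
    have h1 := Pool.Agent.Hp428.ST.three_signs (c := (lam J).toReal / 25) (e₁ := e 0) (e₂ := e 1)
      (e₃ := e 2) (P := fun v => y v ∈ J)
      (fun φ χ hφ bφ hχ bχ => pair_tt h (i := 0) (j := 1) (by decide) hφ bφ hχ bχ hg bg)
      (fun φ χ hφ bφ hχ bχ => pair_tt h (i := 0) (j := 2) (by decide) hφ bφ hχ bχ hg bg)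
      (fun φ χ hφ bφ hχ bχ => pair_tt h (i := 1) (j := 2) (by decide) hφ bφ hχ bχ hg bg)
      (fun F hF => tens_tt h hg bg hF) (fun v => g0 _) (fun v => g1 _) hG (fun v hv => gJ _ hv)
      (he 0) (he 1) (he 2) (by nlinarith)
    filter_upwards [h1] with N hN
    rw [proportion_eq]
    refine hN.trans (Pool.Agent.Hp428.ST.mn_mono (fun v => ?_) N)
    split_ifs with a b b
    · exact le_rfl
    · refine absurd ⟨fun i => ?_, a.2⟩ b
      obtain ⟨⟨p, q, r⟩, -⟩ := a
      fin_cases i
      · simpa [mul_left_comm] using p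
      · simpa [mul_left_comm] using q
      · simpa [mul_left_comm] using r
    · norm_num
    · exact le_rfl
  · have hIp : 0 < (satoTate I).toReal := ENNReal.toReal_pos hI0
      (measure_ne_top Pool.Agent.Hp428.ST.st _)
    have hm' : (2 * (8 / (3 * Real.pi)) ^ 2 - 1) / 16 > (0.027075 : ℝ) := by
      linarith
    obtain ⟨g, hg, g0, g1, gJ, hgi⟩ := Pool.Agent.Hp428.ST.open_approx lam hJ
      (c := 9999 / 10000 * (lam J).toReal) (by
        rw [Measure.real]
        linarith)
    obtain ⟨k, hk, k0, k1, kI, hki⟩ := Pool.Agent.Hp428.ST.open_approx Pool.Agent.Hp428.ST.st hI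
      (c := 9999 / 10000 * (satoTate I).toReal) (by
        rw [Measure.real]
        change _ < (satoTate I).toReal
        linarith)
    have bg : ∃ C, ∀ x, |g x| ≤ C := ⟨1, fun x => by
      rw [abs_of_nonneg (g0 x)]
      exact g1 x⟩
    have bk : ∃ C, ∀ x, |k x| ≤ C := ⟨1, fun x => by
      rw [abs_of_nonneg (k0 x)]
      exact k1 x⟩
    have hG : 0 < ∫ x, g x ∂lam := lt_trans (by positivity) hgi
    have hH : 0 < ∫ x, k x ∂Pool.Agent.Hp428.ST.st := lt_trans (by positivity) hki
    have hGH : (9998 / 10000 : ℝ) * ((satoTate I).toReal * (lam J).toReal) <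
        (∫ x, k x ∂Pool.Agent.Hp428.ST.st) * ∫ x, g x ∂lam := by
      have q := mul_lt_mul'' hki hgi (by positivity) (by positivity)
      nlinarith [mul_pos hIp hJp]
    have h1 := Pool.Agent.Hp428.ST.two_signs (c := (satoTate I).toReal * (lam J).toReal / 37)
      (e₁ := e 0) (e₂ := e 1) (P := fun v => θ 2 v ∈ I ∧ y v ∈ J) (θ₁ := θ 0) (θ₂ := θ 1)
      (γ := fun v => k (θ 2 v) * g (y v)) (G := (∫ x, k x ∂Pool.Agent.Hp428.ST.st) * ∫ x, g x ∂lam)
      (fun φ hφ bφ => (pair_tt h (i := 0) (j := 2) (by decide) hφ bφ hk bk hg bg).congr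
        (fun v => by ring) (by ring))
      (fun φ hφ bφ => (pair_tt h (i := 1) (j := 2) (by decide) hφ bφ hk bk hg bg).congr
        (fun v => by ring) (by ring))
      ((tens_tt h hg bg (F := fun x => k (Real.arccos x)) (hk.comp Real.continuous_arccos)).congr
        (fun v => by
          rw [Real.arccos_cos (h.mem 2 v).1 (h.mem 2 v).2]
          ring) rfl)
      (fun v => mul_nonneg (k0 _) (g0 _))
      (fun v => mul_le_one₀ (k1 _) (g0 _) (g1 _)) (mul_pos hH hG)
      (fun v hv => ⟨kI _ (left_ne_zero_of_mul hv), gJ _ (right_ne_zero_of_mul hv)⟩)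
      (he 0) (he 1) (by nlinarith [mul_pos hIp hJp])
    filter_upwards [h1] with N hN
    rw [proportion_eq]
    refine hN.trans (Pool.Agent.Hp428.ST.mn_mono (fun v => ?_) N)
    split_ifs with a b b
    · exact le_rfl
    · obtain ⟨⟨p, q⟩, r⟩ := a
      refine absurd ⟨?_, ?_, r.1, r.2⟩ b
      · simpa [mul_left_comm] using p
      · simpa [mul_left_comm] using q
    · norm_num
    · exact le_rfl

end Pool.Agent.Results.MP_4c4ce6_nt.SignPatterns
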